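import Pool.Agent.Helper37.SN.Stmts

set_option autoImplicit false

open MeasureTheory Real FourierTransform

namespace Pool.Agent.Helper37.SN

theorem fcd_supp {k : ℕ} {W : ℝ → ℂ} (hW : ∀ y, 2 ≤ |y| → W y = 0) (i : ℕ) (y : ℝ)
    (hy : y ∉ Set.Icc (-2 : ℝ) 2) : iteratedDeriv i W y = 0 := by
  have h1 : tsupport W ⊆ Set.Icc (-2 : ℝ) 2 := by
    apply closure_minimal _ isClosed_Icc
    intro z hz
    by_contra hz'
    apply hz
    apply hW
    rw [Set.mem_Icc, not_and_or] at hz'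
    rcases hz' with h | h
    · have : z < -2 := not_le.1 h
      rw [abs_of_neg (by linarith)]
      linarith
    · have : 2 < z := not_le.1 h
      rw [abs_of_pos (by linarith)]
      linarith
  rw [iteratedDeriv_eq_iteratedFDeriv]
  have h2 : iteratedFDeriv ℝ i W y = 0 := by
    by_contra h3
    exact hy (h1 (support_iteratedFDeriv_subset i h3))
  rw [h2]
  rfl

theorem fcd_int {k : ℕ} {W : ℝ → ℂ} (hk : ContDiff ℝ k W) (hW : ∀ y, 2 ≤ |y| → W y = 0) {i : ℕ}
    (hi : i ≤ k) : Integrable (iteratedDeriv i W) := by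
  have h1 : Continuous (iteratedDeriv i W) := hk.continuous_iteratedDeriv i (by exact_mod_cast hi)
  apply h1.integrable_of_hasCompactSupport
  exact HasCompactSupport.intro isCompact_Icc fun y hy => fcd_supp (k := k) hW i y hy

theorem fcd_bound {k : ℕ} {W : ℝ → ℂ} {a : ℝ} (hW : ∀ y, 2 ≤ |y| → W y = 0) {i : ℕ}
    (ha : ∀ y, ‖iteratedDeriv i W y‖ ≤ a) (ξ : ℝ) :
    ‖𝓕 (iteratedDeriv i W) ξ‖ ≤ 4 * a := by
  rw [Real.fourier_real_eq_integral_exp_smul]
  have h1 : ∫ v : ℝ, Complex.exp (↑(-2 * π * v * ξ) * Complex.I) • iteratedDeriv i W v =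
      ∫ v in Set.Icc (-2 : ℝ) 2,
        Complex.exp (↑(-2 * π * v * ξ) * Complex.I) • iteratedDeriv i W v := by
    rw [setIntegral_eq_integral_of_forall_compl_eq_zero]
    intro v hv
    rw [fcd_supp (k := k) hW i v hv, smul_zero]
  rw [h1]
  have h2 := norm_setIntegral_le_of_norm_le_const (μ := volume) (s := Set.Icc (-2 : ℝ) 2) (C := a)
    (f := fun v => Complex.exp (↑(-2 * π * v * ξ) * Complex.I) • iteratedDeriv i W v)
    (by simp) (fun v _ => by
      rw [norm_smul, Complex.norm_exp_ofReal_mul_I, one_mul]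
      exact ha v)
  refine h2.trans (le_of_eq ?_)
  rw [Measure.real, Real.volume_Icc, ENNReal.toReal_ofReal (by norm_num)]
  ring

theorem st_FCD : ST_FCD := by
  intro k
  refine ⟨4 * 2 ^ k, by positivity, fun a W hk hW ha ξ => ?_⟩
  have ha0 : 0 ≤ a := (norm_nonneg _).trans (ha 0 (Nat.zero_le _) 0)
  have hF : ∫ y : ℝ, Complex.exp (-(((2 * Real.pi * ξ * y : ℝ) : ℂ) * Complex.I)) * W y =
      𝓕 W ξ := by
    rw [Real.fourier_real_eq_integral_exp_smul]
    congr 1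
    funext y
    rw [smul_eq_mul]
    congr 2
    push_cast
    ring
  rw [hF]
  have h0 : ‖𝓕 W ξ‖ ≤ 4 * a := by
    have := fcd_bound (k := k) (i := 0) hW (ha 0 (Nat.zero_le _)) ξ
    rwa [iteratedDeriv_zero] at this
  have h1 : ‖𝓕 (iteratedDeriv k W) ξ‖ ≤ 4 * a := fcd_bound (k := k) (i := k) hW (ha k le_rfl) ξ
  have h2 := Real.fourier_iteratedDeriv (f := W) (N := (k : ℕ∞)) (n := k) (by exact_mod_cast hk)
    (fun n hn => fcd_int hk hW (by exact_mod_cast hn)) (by exact_mod_cast le_rfl)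
  rw [h2] at h1
  simp only [norm_smul, norm_pow, norm_mul, Complex.norm_ofNat, Complex.norm_real, Complex.norm_I,
    mul_one, Real.norm_eq_abs, abs_of_pos Real.pi_pos] at h1
  have h3 : |ξ| ^ k * ‖𝓕 W ξ‖ ≤ 4 * a := by
    refine le_trans ?_ h1
    apply mul_le_mul_of_nonneg_right _ (norm_nonneg _)
    apply pow_le_pow_left₀ (abs_nonneg _)
    have : 1 ≤ 2 * π := by
      have := Real.pi_gt_three
      linarith
    nlinarith [abs_nonneg ξ]
  rw [le_div_iff₀ (by positivity)]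
  rcases le_total |ξ| 1 with h | h
  · have h4 : (1 + |ξ|) ^ k ≤ 2 ^ k := pow_le_pow_left₀ (by positivity) (by linarith) k
    calc ‖𝓕 W ξ‖ * (1 + |ξ|) ^ k ≤ (4 * a) * 2 ^ k :=
          mul_le_mul h0 h4 (by positivity) (by positivity)
      _ = _ := by ring
  · have h4 : (1 + |ξ|) ^ k ≤ (2 * |ξ|) ^ k := pow_le_pow_left₀ (by positivity) (by linarith) k
    calc ‖𝓕 W ξ‖ * (1 + |ξ|) ^ k ≤ ‖𝓕 W ξ‖ * (2 * |ξ|) ^ k :=
          mul_le_mul_of_nonneg_left h4 (norm_nonneg _)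
      _ = 2 ^ k * (|ξ| ^ k * ‖𝓕 W ξ‖) := by rw [mul_pow]; ring
      _ ≤ 2 ^ k * (4 * a) := mul_le_mul_of_nonneg_left h3 (by positivity)
      _ = _ := by ring

end Pool.Agent.Helper37.SN
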