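import Pool.Agent.Helper37.SN.Stmts

set_option autoImplicit false

open Finset

namespace Pool.Agent.Helper37.SN

/-- primitive used for the comparison -/
noncomputable def serF (h b x : ℝ) : ℝ := (x / (1 + h * x)) ^ b

theorem ser_deriv {h b x : ℝ} (hh : 0 < h) (hx : 0 < x) :
    HasDerivAt (serF h b) (1 / (1 + h * x) ^ 2 * b * (x / (1 + h * x)) ^ (b - 1)) x := by
  have h1 : 0 < 1 + h * x := by positivity
  have h2 : HasDerivAt (fun y : ℝ => y / (1 + h * y)) (1 / (1 + h * x) ^ 2) x := by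
    have h3 : HasDerivAt (fun y : ℝ => 1 + h * y) h x := by
      simpa using ((hasDerivAt_id x).const_mul h).const_add 1
    have h4 := (hasDerivAt_id x).div h3 h1.ne'
    have h5 : (1 * (1 + h * x) - x * h) / (1 + h * x) ^ 2 = 1 / (1 + h * x) ^ 2 := by
      congr 1
      ring
    simp only [id] at h4
    rw [h5] at h4
    exact h4
  exact h2.rpow_const (Or.inl (by positivity))

theorem ser_step {β h : ℝ} (hβ : -1 < β) (hh : 0 < h) (hh1 : h ≤ 1) {k : ℕ} (hk : β + 2 ≤ k)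
    (n : ℕ) : ((n : ℝ) + 1) ^ β / (1 + ((n : ℝ) + 1) * h) ^ k ≤
      2 ^ (β + 3) / (β + 1) * (serF h (β + 1) ((n : ℝ) + 2) - serF h (β + 1) ((n : ℝ) + 1)) := by
  set u : ℝ := (n : ℝ) + 1 with hu
  have hu1 : 1 ≤ u := by
    rw [hu]
    have : (0 : ℝ) ≤ n := Nat.cast_nonneg n
    linarith
  have hu0 : 0 < u := by linarith
  have hu2 : (n : ℝ) + 2 = u + 1 := by rw [hu]; ring
  rw [hu2]
  set v : ℝ := 1 + u * h with hv
  have huh : 0 < u * h := by positivity
  have hv1 : 1 ≤ v := by linarith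
  have hv0 : 0 < v := by linarith
  obtain ⟨c, ⟨hc1, hc2⟩, hc⟩ := exists_hasDerivAt_eq_slope (serF h (β + 1))
    (fun x => 1 / (1 + h * x) ^ 2 * (β + 1) * (x / (1 + h * x)) ^ (β + 1 - 1))
    (show u < u + 1 by linarith)
    (fun x hx => (ser_deriv (b := β + 1) hh (lt_of_lt_of_le hu0 hx.1)).continuousAt.continuousWithinAt)
    (fun x hx => ser_deriv hh (lt_trans hu0 hx.1))
  have hc0 : 0 < c := by linarith
  have hsl : serF h (β + 1) (u + 1) - serF h (β + 1) u =
      1 / (1 + h * c) ^ 2 * (β + 1) * (c / (1 + h * c)) ^ (β + 1 - 1) := by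
    rw [hc]
    have : u + 1 - u = 1 := by ring
    rw [this, div_one]
  rw [hsl]
  have hw0 : 0 < 1 + h * c := by positivity
  have hw2 : 1 + h * c ≤ 2 * v := by
    have h1 : h * c ≤ h * (u + 1) := mul_le_mul_of_nonneg_left hc2.le hh.le
    rw [hv]
    nlinarith
  have hc3 : c ≤ 2 * u := by linarith
  have h2β : (1 / 2 : ℝ) * u ^ β ≤ c ^ β := by
    rcases le_total 0 β with h0 | h0
    · have h1 : u ^ β ≤ c ^ β := Real.rpow_le_rpow hu0.le hc1.le h0
      have h2 : 0 ≤ u ^ β := by positivity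
      linarith
    · have h1 : (2 * u) ^ β ≤ c ^ β := Real.rpow_le_rpow_of_nonpos hc0 hc3 h0
      rw [Real.mul_rpow (by norm_num) hu0.le] at h1
      have h2 : (1 / 2 : ℝ) ≤ 2 ^ β := by
        have h3 : (2 : ℝ) ^ (-1 : ℝ) ≤ 2 ^ β :=
          Real.rpow_le_rpow_of_exponent_le (by norm_num) hβ.le
        rw [Real.rpow_neg_one] at h3
        linarith
      have h4 : (1 / 2 : ℝ) * u ^ β ≤ 2 ^ β * u ^ β :=
        mul_le_mul_of_nonneg_right h2 (by positivity)
      linarith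
  have hv2 : (2 * v) ^ (-(β + 2)) ≤ (1 + h * c) ^ (-(β + 2)) :=
    Real.rpow_le_rpow_of_nonpos hw0 hw2 (by linarith)
  have hvk : 1 / v ^ k ≤ v ^ (-(β + 2)) := by
    rw [Real.rpow_neg hv0.le, ← one_div]
    apply one_div_le_one_div_of_le (by positivity)
    rw [← Real.rpow_natCast v k]
    exact Real.rpow_le_rpow_of_exponent_le hv1 hk
  have hF : 1 / (1 + h * c) ^ 2 * (c / (1 + h * c)) ^ (β + 1 - 1) =
      c ^ β * (1 + h * c) ^ (-(β + 2)) := by
    rw [show β + 1 - 1 = β by ring, Real.div_rpow hc0.le hw0.le,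
      show -(β + 2) = -β + (-2 : ℝ) by ring, Real.rpow_add hw0, Real.rpow_neg hw0.le,
      Real.rpow_neg hw0.le]
    have : (1 + h * c) ^ (2 : ℝ) = (1 + h * c) ^ 2 := by
      rw [← Real.rpow_natCast]
      norm_num
    rw [this]
    field_simp
  have hb : 0 < β + 1 := by linarith
  have e1 : 2 ^ (β + 3) / (β + 1) *
      (1 / (1 + h * c) ^ 2 * (β + 1) * (c / (1 + h * c)) ^ (β + 1 - 1)) =
      2 ^ (β + 3) * (c ^ β * (1 + h * c) ^ (-(β + 2))) := by
    rw [← hF]
    field_simp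
  rw [e1]
  have e2 : (2 : ℝ) ^ (β + 3) = 2 * 2 ^ (β + 2) := by
    rw [show β + 3 = 1 + (β + 2) by ring, Real.rpow_add (by norm_num), Real.rpow_one]
  have e3 : (2 : ℝ) ^ (β + 2) * (2 * v) ^ (-(β + 2)) = v ^ (-(β + 2)) := by
    rw [Real.mul_rpow (by norm_num) hv0.le, ← mul_assoc, ← Real.rpow_add (by norm_num)]
    simp
  calc u ^ β / v ^ k = u ^ β * (1 / v ^ k) := by ring
    _ ≤ u ^ β * v ^ (-(β + 2)) := mul_le_mul_of_nonneg_left hvk (by positivity)
    _ = 2 * 2 ^ (β + 2) * ((1 / 2 * u ^ β) * (2 * v) ^ (-(β + 2))) := by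
        rw [← e3]
        ring
    _ ≤ 2 * 2 ^ (β + 2) * (c ^ β * (1 + h * c) ^ (-(β + 2))) := by
        apply mul_le_mul_of_nonneg_left _ (by positivity)
        exact mul_le_mul h2β hv2 (by positivity) (by positivity)
    _ = _ := by rw [e2]

theorem st_SER : ST_SER := by
  intro β hβ k hk
  have hb : 0 < β + 1 := by linarith
  refine ⟨2 ^ (β + 3) / (β + 1), by positivity, fun h hh hh1 N => ?_⟩
  have h1 : ∑ n ∈ range N, ((n : ℝ) + 1) ^ β / (1 + ((n : ℝ) + 1) * h) ^ k ≤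
      ∑ n ∈ range N, 2 ^ (β + 3) / (β + 1) *
        (serF h (β + 1) ((n : ℝ) + 2) - serF h (β + 1) ((n : ℝ) + 1)) :=
    Finset.sum_le_sum fun n _ => ser_step hβ hh hh1 hk n
  refine h1.trans ?_
  rw [← Finset.mul_sum]
  apply mul_le_mul_of_nonneg_left _ (by positivity)
  have h2 : ∑ n ∈ range N, (serF h (β + 1) ((n : ℝ) + 2) - serF h (β + 1) ((n : ℝ) + 1)) =
      serF h (β + 1) ((N : ℝ) + 1) - serF h (β + 1) 1 := by
    have h3 := Finset.sum_range_sub (fun n : ℕ => serF h (β + 1) ((n : ℝ) + 1)) N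
    simp only [Nat.cast_add, Nat.cast_one, Nat.cast_zero, zero_add] at h3
    rw [← h3]
    refine Finset.sum_congr rfl fun n _ => ?_
    rw [show (n : ℝ) + 1 + 1 = n + 2 by ring]
  rw [h2]
  have h4 : 0 ≤ serF h (β + 1) 1 := by
    unfold serF
    positivity
  have h5 : serF h (β + 1) ((N : ℝ) + 1) ≤ h ^ (-(β + 1)) := by
    unfold serF
    rw [Real.rpow_neg hh.le, ← Real.inv_rpow hh.le]
    apply Real.rpow_le_rpow (by positivity) _ hb.le
    rw [div_le_iff₀ (by positivity)]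
    have h6 : h⁻¹ * (1 + h * ((N : ℝ) + 1)) = h⁻¹ + ((N : ℝ) + 1) := by
      field_simp
    rw [h6]
    have : 0 < h⁻¹ := by positivity
    linarith
  linarith

end Pool.Agent.Helper37.SN
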