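import Pool.Agent.Helper37.SN.Stmts

set_option autoImplicit false

open MeasureTheory Finset
open scoped ENNReal

namespace Pool.Agent.Helper37.SN

theorem int1_ball (u : ℝ) :
    haar1 (Metric.closedBall (0 : UnitAddCircle) u) ≤ ENNReal.ofReal (2 * u) := by
  have h1 : haar1 = (volume : Measure UnitAddCircle) := by
    unfold haar1
    rw [AddCircle.volume_eq_smul_haarAddCircle]
    simp
  rw [h1, AddCircle.volume_closedBall]
  exact ENNReal.ofReal_le_ofReal (min_le_right _ _)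

theorem int1_env {σ N i : ℕ} {t : UnitAddCircle} (hσ : σ ≤ N)
    (hi : i < N → ¬ ‖t‖ ≤ (1 / 2 : ℝ) ^ (i + 1)) :
    env σ t ≤ 2 * (1 / 2 : ℝ) ^ (σ - i) := by
  have h0 : 0 ≤ (2 : ℝ) ^ σ * ‖t‖ := by positivity
  unfold env
  rcases le_or_gt σ i with h | h
  · rw [Nat.sub_eq_zero_of_le h, pow_zero, mul_one, div_le_iff₀ (by linarith)]
    linarith
  · have h1 := not_le.1 (hi (by omega))
    obtain ⟨j, rfl⟩ : ∃ j, σ = i + j := ⟨σ - i, by omega⟩
    rw [Nat.add_sub_cancel_left, div_le_iff₀ (by linarith)]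
    have h2 : (1 : ℝ) = 2 * (1 / 2 : ℝ) ^ j * (2 ^ (i + j) * (1 / 2) ^ (i + 1)) := by
      rw [pow_add, pow_succ]
      have h3 : (1 / 2 : ℝ) ^ j * 2 ^ j = 1 := by
        rw [← mul_pow]
        norm_num
      have h4 : (1 / 2 : ℝ) ^ i * 2 ^ i = 1 := by
        rw [← mul_pow]
        norm_num
      calc (1 : ℝ) = ((1 / 2 : ℝ) ^ j * 2 ^ j) * ((1 / 2 : ℝ) ^ i * 2 ^ i) := by rw [h3, h4]; norm_num
        _ = _ := by ring
    have h5 : (2 : ℝ) ^ (i + j) * (1 / 2) ^ (i + 1) ≤ 2 ^ (i + j) * ‖t‖ :=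
      mul_le_mul_of_nonneg_left h1.le (by positivity)
    have h6 : 2 * (1 / 2 : ℝ) ^ j * (2 ^ (i + j) * (1 / 2) ^ (i + 1)) ≤
        2 * (1 / 2 : ℝ) ^ j * (1 + 2 ^ (i + j) * ‖t‖) :=
      mul_le_mul_of_nonneg_left (by linarith) (by positivity)
    linarith

theorem int1_env_nonneg (σ : ℕ) (t : UnitAddCircle) : 0 ≤ env σ t := by
  unfold env
  positivity

theorem int1_point {p : ℝ} (hp1 : 1 < p) (hp2 : p < 2) {σ σ' N : ℕ} (hσ : σ ≤ N) (hσ' : σ' ≤ N)
    (t : UnitAddCircle) : ∃ i ∈ range (N + 1), ‖t‖ ≤ (1 / 2 : ℝ) ^ i ∧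
      env σ t * env σ' t ^ (p - 1) ≤
        4 * (1 / 2 : ℝ) ^ (σ - i) * ((1 / 2 : ℝ) ^ (p - 1)) ^ (σ' - i) := by
  classical
  have hn : ‖t‖ ≤ 1 / 2 := by
    have := AddCircle.norm_le_half_period (1 : ℝ) (x := t) one_ne_zero
    simpa using this
  set i := Nat.findGreatest (fun i => ‖t‖ ≤ (1 / 2 : ℝ) ^ i) N with hi
  have hiN : i ≤ N := Nat.findGreatest_le N
  have h1 : ‖t‖ ≤ (1 / 2 : ℝ) ^ i :=
    Nat.findGreatest_spec (P := fun i => ‖t‖ ≤ (1 / 2 : ℝ) ^ i) (Nat.zero_le N)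
      (by rw [pow_zero]; linarith)
  have h2 : i < N → ¬ ‖t‖ ≤ (1 / 2 : ℝ) ^ (i + 1) := fun h =>
    Nat.findGreatest_is_greatest (P := fun i => ‖t‖ ≤ (1 / 2 : ℝ) ^ i) (Nat.lt_succ_self i) h
  refine ⟨i, Finset.mem_range.2 (by omega), h1, ?_⟩
  have h3 := int1_env (t := t) hσ h2
  have h4 := int1_env (t := t) hσ' h2
  have h5 : env σ' t ^ (p - 1) ≤ 2 * ((1 / 2 : ℝ) ^ (p - 1)) ^ (σ' - i) := by
    refine (Real.rpow_le_rpow (int1_env_nonneg _ _) h4 (by linarith)).trans ?_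
    rw [Real.mul_rpow (by norm_num) (by positivity)]
    have h6 : ((1 / 2 : ℝ) ^ (σ' - i)) ^ (p - 1) = ((1 / 2 : ℝ) ^ (p - 1)) ^ (σ' - i) := by
      rw [← Real.rpow_natCast, ← Real.rpow_mul (by norm_num), mul_comm, Real.rpow_mul (by norm_num),
        Real.rpow_natCast]
    rw [h6]
    apply mul_le_mul_of_nonneg_right _ (by positivity)
    calc (2 : ℝ) ^ (p - 1) ≤ 2 ^ (1 : ℝ) :=
          Real.rpow_le_rpow_of_exponent_le (by norm_num) (by linarith)
      _ = 2 := Real.rpow_one 2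
  calc env σ t * env σ' t ^ (p - 1) ≤
        (2 * (1 / 2 : ℝ) ^ (σ - i)) * (2 * ((1 / 2 : ℝ) ^ (p - 1)) ^ (σ' - i)) :=
        mul_le_mul h3 h5 (Real.rpow_nonneg (int1_env_nonneg _ _) _) (by positivity)
    _ = _ := by ring

theorem int1_lint {p : ℝ} (hp1 : 1 < p) (hp2 : p < 2) {σ σ' N : ℕ} (hσ : σ ≤ N) (hσ' : σ' ≤ N) :
    ∫⁻ t, ENNReal.ofReal (env σ t * env σ' t ^ (p - 1)) ∂haar1 ≤
      ENNReal.ofReal (8 * ∑ i ∈ range (N + 1),
        (1 / 2 : ℝ) ^ (σ - i) * ((1 / 2 : ℝ) ^ (p - 1)) ^ (σ' - i) * (1 / 2) ^ i) := by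
  have h1 : ∀ t : UnitAddCircle, ENNReal.ofReal (env σ t * env σ' t ^ (p - 1)) ≤
      ∑ i ∈ range (N + 1), ENNReal.ofReal
        (4 * (1 / 2 : ℝ) ^ (σ - i) * ((1 / 2 : ℝ) ^ (p - 1)) ^ (σ' - i)) *
          (Metric.closedBall (0 : UnitAddCircle) ((1 / 2 : ℝ) ^ i)).indicator 1 t := by
    intro t
    obtain ⟨i, hi, h2, h3⟩ := int1_point hp1 hp2 hσ hσ' t
    refine (ENNReal.ofReal_le_ofReal h3).trans ?_
    refine le_trans (le_of_eq ?_) (Finset.single_le_sum (f := fun i => ENNReal.ofReal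
        (4 * (1 / 2 : ℝ) ^ (σ - i) * ((1 / 2 : ℝ) ^ (p - 1)) ^ (σ' - i)) *
          (Metric.closedBall (0 : UnitAddCircle) ((1 / 2 : ℝ) ^ i)).indicator 1 t)
        (fun _ _ => bot_le) hi)
    have h4 : t ∈ Metric.closedBall (0 : UnitAddCircle) ((1 / 2 : ℝ) ^ i) := by
      rw [mem_closedBall_zero_iff]
      exact h2
    simp only [Set.indicator_of_mem h4, Pi.one_apply, mul_one]
  refine (lintegral_mono h1).trans ?_
  rw [lintegral_finsetSum]
  · have h2 : ∀ i ∈ range (N + 1), ∫⁻ t, ENNReal.ofReal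
        (4 * (1 / 2 : ℝ) ^ (σ - i) * ((1 / 2 : ℝ) ^ (p - 1)) ^ (σ' - i)) *
          (Metric.closedBall (0 : UnitAddCircle) ((1 / 2 : ℝ) ^ i)).indicator 1 t ∂haar1 ≤
        ENNReal.ofReal (8 * ((1 / 2 : ℝ) ^ (σ - i) * ((1 / 2 : ℝ) ^ (p - 1)) ^ (σ' - i) *
          (1 / 2) ^ i)) := by
      intro i _
      rw [lintegral_const_mul _ (measurable_one.indicator Metric.isClosed_closedBall.measurableSet),
        lintegral_indicator_one Metric.isClosed_closedBall.measurableSet]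
      refine (mul_le_mul_right (int1_ball _) _).trans ?_
      rw [← ENNReal.ofReal_mul (by positivity)]
      apply ENNReal.ofReal_le_ofReal
      apply le_of_eq
      ring
    refine (Finset.sum_le_sum h2).trans ?_
    rw [← ENNReal.ofReal_sum_of_nonneg, Finset.mul_sum]
    intro i _
    positivity
  · intro i _
    exact (measurable_one.indicator Metric.isClosed_closedBall.measurableSet).const_mul _

theorem int1_geom {x : ℝ} (hx0 : 0 ≤ x) (hx1 : x < 1) (n : ℕ) :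
    ∑ i ∈ range n, x ^ i ≤ 1 / (1 - x) := by
  have h := (summable_geometric_of_lt_one hx0 hx1).sum_le_tsum (range n)
    (fun i _ => pow_nonneg hx0 i)
  rw [tsum_geometric_of_lt_one hx0 hx1] at h
  rwa [one_div]

theorem st_INT1 : ST_INT1 := by
  intro p hp1 hp2
  set x : ℝ := (1 / 2 : ℝ) ^ (p - 1) with hx
  have hx0 : 0 < x := by positivity
  have hx1 : x < 1 := Real.rpow_lt_one (by norm_num) (by norm_num) (by linarith)
  have hx2 : 1 / 2 < x := by
    have h := Real.rpow_lt_rpow_of_exponent_gt (x := (1 / 2 : ℝ)) (by norm_num) (by norm_num)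
      (show p - 1 < 1 by linarith)
    rwa [Real.rpow_one] at h
  set y : ℝ := 1 / (2 * x) with hy
  have hy0 : 0 < y := by positivity
  have hy1 : y < 1 := by
    rw [hy, div_lt_one (by positivity)]
    linarith
  have hX : 0 < 1 / (1 - x) := by
    have : 0 < 1 - x := by linarith
    positivity
  have hY : 0 < 1 / (1 - y) := by
    have : 0 < 1 - y := by linarith
    positivity
  refine ⟨8 * (1 / (1 - x) + 1 / (1 - y) + 1), by positivity, fun σ σ' => ⟨fun h => ?_, fun h => ?_⟩⟩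
  · refine (int1_lint hp1 hp2 h le_rfl).trans ?_
    apply ENNReal.ofReal_le_ofReal
    have e1 : (2 : ℝ) ^ (-(σ : ℝ)) = (1 / 2) ^ σ := by
      rw [Real.rpow_neg (by norm_num), Real.rpow_natCast, one_div, inv_pow]
    have e2 : (2 : ℝ) ^ (-((p - 1) * ((σ' : ℝ) - σ))) = x ^ (σ' - σ) := by
      rw [hx, ← Real.rpow_natCast, ← Real.rpow_mul (by norm_num), Nat.cast_sub h, one_div,
        Real.inv_rpow (by norm_num), Real.rpow_neg (by norm_num)]
    rw [e1, e2, ← hx]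
    rw [← Finset.sum_range_add_sum_Ico _ (show σ + 1 ≤ σ' + 1 by omega)]
    have hs1 : ∑ i ∈ range (σ + 1), (1 / 2 : ℝ) ^ (σ - i) * x ^ (σ' - i) * (1 / 2) ^ i ≤
        (1 / 2) ^ σ * x ^ (σ' - σ) * (1 / (1 - x)) := by
      have h3 : ∀ i ∈ range (σ + 1), (1 / 2 : ℝ) ^ (σ - i) * x ^ (σ' - i) * (1 / 2) ^ i =
          (1 / 2) ^ σ * x ^ (σ' - σ) * x ^ (σ - i) := by
        intro i hi
        have hi' := Finset.mem_range.1 hi
        have h4 : (1 / 2 : ℝ) ^ (σ - i) * (1 / 2) ^ i = (1 / 2) ^ σ := by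
          rw [← pow_add]
          congr 1
          omega
        have h5 : x ^ (σ' - i) = x ^ (σ' - σ) * x ^ (σ - i) := by
          rw [← pow_add]
          congr 1
          omega
        rw [h5, ← h4]
        ring
      rw [Finset.sum_congr rfl h3, ← Finset.mul_sum]
      apply mul_le_mul_of_nonneg_left _ (by positivity)
      have h6 := Finset.sum_range_reflect (fun j => x ^ j) (σ + 1)
      simp only [Nat.add_sub_cancel] at h6
      rw [h6]
      exact int1_geom hx0.le hx1 _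
    have hs2 : ∑ i ∈ Ico (σ + 1) (σ' + 1), (1 / 2 : ℝ) ^ (σ - i) * x ^ (σ' - i) * (1 / 2) ^ i ≤
        (1 / 2) ^ σ * x ^ (σ' - σ) * (1 / (1 - y)) := by
      have h3 : ∀ i ∈ Ico (σ + 1) (σ' + 1), (1 / 2 : ℝ) ^ (σ - i) * x ^ (σ' - i) * (1 / 2) ^ i =
          (1 / 2) ^ σ * x ^ (σ' - σ) * y ^ (i - σ) := by
        intro i hi
        have hi' := Finset.mem_Ico.1 hi
        have h4 : (1 / 2 : ℝ) ^ i = (1 / 2) ^ σ * (1 / 2) ^ (i - σ) := by
          rw [← pow_add]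
          congr 1
          omega
        have h5 : x ^ (σ' - σ) = x ^ (σ' - i) * x ^ (i - σ) := by
          rw [← pow_add]
          congr 1
          omega
        have h6 : x ^ (i - σ) * y ^ (i - σ) = (1 / 2) ^ (i - σ) := by
          rw [← mul_pow]
          congr 1
          rw [hy]
          field_simp
        rw [h4, h5, Nat.sub_eq_zero_of_le (by omega), pow_zero, one_mul]
        calc x ^ (σ' - i) * ((1 / 2) ^ σ * (1 / 2) ^ (i - σ)) =
            x ^ (σ' - i) * ((1 / 2) ^ σ * (x ^ (i - σ) * y ^ (i - σ))) := by rw [h6]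
          _ = _ := by ring
      rw [Finset.sum_congr rfl h3, ← Finset.mul_sum]
      apply mul_le_mul_of_nonneg_left _ (by positivity)
      refine le_trans ?_ (int1_geom hy0.le hy1 (σ' + 1))
      rw [Finset.sum_Ico_eq_sum_range]
      refine le_trans (Finset.sum_le_sum (g := fun j => y ^ j) fun j _ => ?_)
        (Finset.sum_le_sum_of_subset_of_nonneg (s := range (σ' + 1 - (σ + 1)))
          (t := range (σ' + 1)) ?_ fun j _ _ => by positivity)
      · apply pow_le_pow_of_le_one hy0.le hy1.le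
        omega
      · intro j hj
        rw [Finset.mem_range] at hj ⊢
        omega
    have hpos : 0 ≤ (1 / 2 : ℝ) ^ σ * x ^ (σ' - σ) := by positivity
    calc 8 * (∑ i ∈ range (σ + 1), (1 / 2 : ℝ) ^ (σ - i) * x ^ (σ' - i) * (1 / 2) ^ i +
          ∑ i ∈ Ico (σ + 1) (σ' + 1), (1 / 2 : ℝ) ^ (σ - i) * x ^ (σ' - i) * (1 / 2) ^ i)
        ≤ 8 * ((1 / 2) ^ σ * x ^ (σ' - σ) * (1 / (1 - x)) +
          (1 / 2) ^ σ * x ^ (σ' - σ) * (1 / (1 - y))) := by linarith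
      _ = 8 * (1 / (1 - x) + 1 / (1 - y)) * ((1 / 2 : ℝ) ^ σ * x ^ (σ' - σ)) := by ring
      _ ≤ 8 * (1 / (1 - x) + 1 / (1 - y) + 1) * ((1 / 2 : ℝ) ^ σ * x ^ (σ' - σ)) :=
          mul_le_mul_of_nonneg_right (by linarith) hpos
      _ = _ := by ring
  · refine (int1_lint hp1 hp2 le_rfl h).trans ?_
    apply ENNReal.ofReal_le_ofReal
    have e1 : (2 : ℝ) ^ (-(σ : ℝ)) = (1 / 2) ^ σ := by
      rw [Real.rpow_neg (by norm_num), Real.rpow_natCast, one_div, inv_pow]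
    rw [e1, ← hx]
    rw [← Finset.sum_range_add_sum_Ico _ (show σ' + 1 ≤ σ + 1 by omega)]
    have h4 : ∀ i, i ≤ σ → (1 / 2 : ℝ) ^ (σ - i) * (1 / 2) ^ i = (1 / 2) ^ σ := by
      intro i hi
      rw [← pow_add]
      congr 1
      omega
    have hs1 : ∑ i ∈ range (σ' + 1), (1 / 2 : ℝ) ^ (σ - i) * x ^ (σ' - i) * (1 / 2) ^ i ≤
        (1 / 2) ^ σ * (1 / (1 - x)) := by
      have h3 : ∀ i ∈ range (σ' + 1), (1 / 2 : ℝ) ^ (σ - i) * x ^ (σ' - i) * (1 / 2) ^ i =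
          (1 / 2) ^ σ * x ^ (σ' - i) := by
        intro i hi
        have hi' := Finset.mem_range.1 hi
        rw [← h4 i (by omega)]
        ring
      rw [Finset.sum_congr rfl h3, ← Finset.mul_sum]
      apply mul_le_mul_of_nonneg_left _ (by positivity)
      have h6 := Finset.sum_range_reflect (fun j => x ^ j) (σ' + 1)
      simp only [Nat.add_sub_cancel] at h6
      rw [h6]
      exact int1_geom hx0.le hx1 _
    have hs2 : ∑ i ∈ Ico (σ' + 1) (σ + 1), (1 / 2 : ℝ) ^ (σ - i) * x ^ (σ' - i) * (1 / 2) ^ i =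
        (1 / 2) ^ σ * ((σ : ℝ) - σ') := by
      have h3 : ∀ i ∈ Ico (σ' + 1) (σ + 1), (1 / 2 : ℝ) ^ (σ - i) * x ^ (σ' - i) * (1 / 2) ^ i =
          (1 / 2) ^ σ := by
        intro i hi
        have hi' := Finset.mem_Ico.1 hi
        rw [← h4 i (by omega), Nat.sub_eq_zero_of_le (show σ' ≤ i by omega), pow_zero, mul_one]
      rw [Finset.sum_congr rfl h3, Finset.sum_const, Nat.card_Ico, nsmul_eq_mul,
        show σ + 1 - (σ' + 1) = σ - σ' by omega, Nat.cast_sub h]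
      ring
    have hd : (0 : ℝ) ≤ (σ : ℝ) - σ' := by
      have : (σ' : ℝ) ≤ σ := by exact_mod_cast h
      linarith
    have hpos : 0 ≤ (1 / 2 : ℝ) ^ σ := by positivity
    have hz : 1 / (1 - x) + ((σ : ℝ) - σ') ≤
        (1 / (1 - x) + 1 / (1 - y) + 1) * (1 + ((σ : ℝ) - σ')) := by nlinarith
    calc 8 * (∑ i ∈ range (σ' + 1), (1 / 2 : ℝ) ^ (σ - i) * x ^ (σ' - i) * (1 / 2) ^ i +
          ∑ i ∈ Ico (σ' + 1) (σ + 1), (1 / 2 : ℝ) ^ (σ - i) * x ^ (σ' - i) * (1 / 2) ^ i)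
        ≤ 8 * ((1 / 2) ^ σ * (1 / (1 - x)) + (1 / 2) ^ σ * ((σ : ℝ) - σ')) := by linarith
      _ = 8 * ((1 / 2 : ℝ) ^ σ * (1 / (1 - x) + ((σ : ℝ) - σ'))) := by ring
      _ ≤ 8 * ((1 / 2 : ℝ) ^ σ *
          ((1 / (1 - x) + 1 / (1 - y) + 1) * (1 + ((σ : ℝ) - σ')))) :=
          mul_le_mul_of_nonneg_left (mul_le_mul_of_nonneg_left hz hpos) (by norm_num)
      _ = _ := by ring

end Pool.Agent.Helper37.SN
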